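import Pool.Agent.U6.VE.Stm

/-!
# Project VE (helper6), package FJ1: the Fejer kernel, upper direction
-/

set_option autoImplicit false

namespace Pool.Agent.U433.VE

open MeasureTheory Pool.Agent.U6.VE Set
open scoped BigOperators ENNReal NNReal FourierTransform

/-! ### the triangle function and its Fourier transform -/

/-- triangle function -/
noncomputable def tri (s : ℝ) : ℝ := max 0 (1 - |s|)

lemma tri_cont : Continuous tri := by
  unfold tri
  fun_prop

lemma tri_zero {s : ℝ} (h : 1 ≤ |s|) : tri s = 0 := max_eq_left (by linarith)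

lemma tri_nonneg (s : ℝ) : 0 ≤ tri s := le_max_left _ _

lemma tri_le (s : ℝ) : tri s ≤ 1 := max_le zero_le_one (by linarith [abs_nonneg s])

lemma tri_neg (s : ℝ) : tri (-s) = tri s := by
  unfold tri
  rw [abs_neg]

/-- the kernel -/
noncomputable def fk (x : ℝ) : ℝ := Real.sinc (Real.pi * x) ^ 2

lemma fk_cont : Continuous fk := by
  unfold fk
  exact (Real.continuous_sinc.comp (by fun_prop)).pow 2

lemma fk_nonneg (x : ℝ) : 0 ≤ fk x := sq_nonneg _

lemma fk_le_one (x : ℝ) : fk x ≤ 1 := by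
  unfold fk
  have h := Real.abs_sinc_le_one (Real.pi * x)
  rw [← sq_abs]
  nlinarith [abs_nonneg (Real.sinc (Real.pi * x))]

lemma fk_le (x : ℝ) : fk x ≤ 2 * (1 + x ^ 2)⁻¹ := by
  have hp : (0 : ℝ) < 1 + x ^ 2 := by positivity
  rw [← div_eq_mul_inv, le_div_iff₀ hp]
  by_cases hx : x ^ 2 ≤ 1
  · have h1 := fk_le_one x
    have h2 := fk_nonneg x
    nlinarith
  · have hx0 : x ≠ 0 := by
      rintro rfl
      simp at hx
    have hpx : Real.pi * x ≠ 0 := mul_ne_zero Real.pi_ne_zero hx0
    unfold fk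
    rw [Real.sinc_of_ne_zero hpx, div_pow, mul_pow, div_mul_eq_mul_div]
    have h1 : (0 : ℝ) < Real.pi ^ 2 * x ^ 2 := by positivity
    rw [div_le_iff₀ h1]
    have h2 : Real.sin (Real.pi * x) ^ 2 ≤ 1 := Real.sin_sq_le_one _
    have h3 : 1 < Real.pi ^ 2 := by nlinarith [Real.pi_gt_three]
    have h4 : 0 < x ^ 2 := by positivity
    nlinarith [mul_le_mul_of_nonneg_right h2 hp.le]

lemma fk_int : Integrable fk := by
  refine (integrable_inv_one_add_sq.const_mul 2).mono' fk_cont.aestronglyMeasurable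
    (Filter.Eventually.of_forall fun x => ?_)
  rw [Real.norm_eq_abs, abs_of_nonneg (fk_nonneg x)]
  exact fk_le x

lemma fk_low {x : ℝ} (h : |x| ≤ 1 / 2) : 4 / Real.pi ^ 2 ≤ fk x := by
  have hpi := Real.pi_pos
  have key : ∀ y : ℝ, 0 < y → y ≤ 1 / 2 → 4 / Real.pi ^ 2 ≤ Real.sinc (Real.pi * y) ^ 2 := by
    intro y hy hy2
    have hpy : 0 < Real.pi * y := by positivity
    rw [Real.sinc_of_ne_zero hpy.ne', div_pow, div_le_div_iff₀ (by positivity) (by positivity)]
    have h1 := Real.mul_le_sin hpy.le (by nlinarith)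
    have h2 : 2 / Real.pi * (Real.pi * y) = 2 * y := by field_simp
    rw [h2] at h1
    have h3 : (2 * y) ^ 2 ≤ Real.sin (Real.pi * y) ^ 2 := pow_le_pow_left₀ (by linarith) h1 2
    nlinarith [sq_nonneg Real.pi]
  unfold fk
  rcases lt_trichotomy x 0 with hx | rfl | hx
  · rw [abs_of_neg hx] at h
    have := key (-x) (by linarith) h
    rwa [mul_neg, Real.sinc_neg] at this
  · rw [mul_zero, Real.sinc_zero, one_pow, div_le_one (by positivity)]
    nlinarith [Real.pi_gt_three]
  · rw [abs_of_pos hx] at h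
    exact key x hx h

/-- (after helper255, `Pool.Agent.H239R2.Flat.CFA_I1`) -/
theorem tri_I (a : ℝ) : ∫ s in (0:ℝ)..1, (1 - s) * Real.cos (a * s) =
    (1 / 2) * Real.sinc (a / 2) ^ 2 := by
  rcases eq_or_ne a 0 with h | h
  · subst h
    have hd : ∀ s ∈ Set.uIcc (0:ℝ) 1, HasDerivAt (fun s : ℝ => s - s ^ 2 / 2)
        ((1 - s) * Real.cos (0 * s)) s := by
      intro s _
      have h1 := (hasDerivAt_id' s).sub ((hasDerivAt_pow 2 s).div_const 2)
      refine h1.congr_deriv ?_
      rw [zero_mul, Real.cos_zero]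
      norm_num
    rw [intervalIntegral.integral_eq_sub_of_hasDerivAt hd
      (Continuous.intervalIntegrable (by fun_prop) _ _), zero_div, Real.sinc_zero]
    norm_num
  · have hd : ∀ s ∈ Set.uIcc (0:ℝ) 1, HasDerivAt
        (fun s : ℝ => (1 - s) * Real.sin (a * s) / a - Real.cos (a * s) / a ^ 2)
        ((1 - s) * Real.cos (a * s)) s := by
      intro s _
      have h0 : HasDerivAt (fun s : ℝ => a * s) a s := by
        simpa using (hasDerivAt_id' s).const_mul a
      have h1 : HasDerivAt (fun s : ℝ => Real.sin (a * s)) (Real.cos (a * s) * a) s := h0.sin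
      have h2 : HasDerivAt (fun s : ℝ => Real.cos (a * s)) (-Real.sin (a * s) * a) s := h0.cos
      have h3 : HasDerivAt (fun s : ℝ => 1 - s) (-1) s := (hasDerivAt_id' s).const_sub 1
      have h4 := ((h3.mul h1).div_const a).sub (h2.div_const (a ^ 2))
      refine h4.congr_deriv ?_
      field_simp
      ring
    have hx : a / 2 ≠ 0 := div_ne_zero h (by norm_num)
    have hc : Real.cos a = 1 - 2 * Real.sin (a / 2) ^ 2 := by
      have := Real.cos_two_mul (a / 2)
      rw [show 2 * (a / 2) = a by ring] at this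
      have h5 := Real.sin_sq_add_cos_sq (a / 2)
      linarith
    rw [intervalIntegral.integral_eq_sub_of_hasDerivAt hd
      (Continuous.intervalIntegrable (by fun_prop) _ _), Real.sinc_of_ne_zero hx]
    simp only [sub_self, zero_mul, zero_div, mul_one, mul_zero, Real.cos_zero, Real.sin_zero, hc]
    field_simp
    ring

lemma ee_cont : Continuous ee := by
  unfold ee
  fun_prop

lemma ee_add (x y : ℝ) : ee (x + y) = ee x * ee y := by
  unfold ee
  rw [← Complex.exp_add]
  congr 1
  push_cast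
  ring

lemma ee_norm (x : ℝ) : ‖ee x‖ = 1 := by
  unfold ee
  exact Complex.norm_exp_ofReal_mul_I _

lemma ee_conj (x : ℝ) : (starRingEnd ℂ) (ee x) = ee (-x) := by
  unfold ee
  rw [← Complex.exp_conj, map_mul, Complex.conj_ofReal, Complex.conj_I]
  congr 1
  push_cast
  ring

lemma ee_add_neg (x : ℝ) : ee x + ee (-x) = ((2 * Real.cos (2 * Real.pi * x) : ℝ) : ℂ) := by
  have h : ((2 * Real.pi * -x : ℝ) : ℂ) * Complex.I = -((2 * Real.pi * x : ℝ) : ℂ) * Complex.I := by
    push_cast
    ring
  unfold ee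
  rw [h, Complex.ofReal_mul 2 (Real.cos (2 * Real.pi * x)), Complex.ofReal_cos,
    Complex.ofReal_ofNat, Complex.two_cos]

/-- the Fourier transform of the triangle function -/
lemma ft_tri (x : ℝ) : ∫ s : ℝ, ee (-(s * x)) * (tri s : ℂ) = (fk x : ℂ) := by
  have hc : Continuous fun s : ℝ => ee (-(s * x)) * (tri s : ℂ) :=
    (ee_cont.comp (by fun_prop)).mul (Complex.continuous_ofReal.comp tri_cont)
  have hc' : Continuous fun s : ℝ => ee (s * x) * (tri s : ℂ) :=
    (ee_cont.comp (by fun_prop)).mul (Complex.continuous_ofReal.comp tri_cont)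
  have h1 : ∫ s : ℝ, ee (-(s * x)) * (tri s : ℂ) =
      ∫ s in (-1 : ℝ)..1, ee (-(s * x)) * (tri s : ℂ) := by
    rw [intervalIntegral.integral_of_le (by norm_num), ← integral_Icc_eq_integral_Ioc,
      setIntegral_eq_integral_of_forall_compl_eq_zero]
    intro s hs
    rw [tri_zero, Complex.ofReal_zero, mul_zero]
    by_contra h
    rw [not_le, abs_lt] at h
    exact hs ⟨h.1.le, h.2.le⟩
  have h2 : ∫ s in (-1 : ℝ)..0, ee (-(s * x)) * (tri s : ℂ) =
      ∫ s in (0 : ℝ)..1, ee (s * x) * (tri s : ℂ) := by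
    have := intervalIntegral.integral_comp_neg (a := (0 : ℝ)) (b := 1)
      (fun s : ℝ => ee (-(s * x)) * (tri s : ℂ))
    rw [neg_zero] at this
    rw [← this]
    refine intervalIntegral.integral_congr fun s _ => ?_
    simp only [tri_neg]
    congr 2
    ring
  have h3 : ∫ s in (0 : ℝ)..1, (ee (s * x) * (tri s : ℂ) + ee (-(s * x)) * (tri s : ℂ)) =
      ((2 * ∫ s in (0 : ℝ)..1, (1 - s) * Real.cos (2 * Real.pi * x * s) : ℝ) : ℂ) := by
    rw [← intervalIntegral.integral_const_mul, ← intervalIntegral.integral_ofReal]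
    refine intervalIntegral.integral_congr fun s hs => ?_
    rw [uIcc_of_le zero_le_one] at hs
    have ht : tri s = 1 - s := by
      unfold tri
      rw [abs_of_nonneg hs.1, max_eq_right (by linarith [hs.2])]
    rw [← add_mul, ee_add_neg, ht]
    push_cast
    rw [show (2 : ℂ) * Real.pi * (s * x) = 2 * Real.pi * x * s by ring]
    ring
  rw [h1, ← intervalIntegral.integral_add_adjacent_intervals (b := 0)
    (hc.intervalIntegrable _ _) (hc.intervalIntegrable _ _), h2,
    ← intervalIntegral.integral_add (hc'.intervalIntegrable _ _) (hc.intervalIntegrable _ _), h3,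
    tri_I]
  unfold fk
  rw [show 2 * Real.pi * x / 2 = Real.pi * x by ring]
  congr 1
  ring

/-- the inversion -/
lemma inv_tri (u : ℝ) : ∫ x : ℝ, ee (x * u) * (fk x : ℂ) = (tri u : ℂ) := by
  have hcont : Continuous fun s : ℝ => (tri s : ℂ) := Complex.continuous_ofReal.comp tri_cont
  have hF : 𝓕 (fun s : ℝ => (tri s : ℂ)) = fun x => (fk x : ℂ) := by
    funext x
    rw [Real.fourier_real_eq_integral_exp_smul, ← ft_tri x]
    refine integral_congr_ae (Filter.Eventually.of_forall fun s => ?_)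
    simp only [smul_eq_mul]
    congr 1
    unfold ee
    congr 3
    ring
  have hint : Integrable fun s : ℝ => (tri s : ℂ) := by
    refine hcont.integrable_of_hasCompactSupport ?_
    refine HasCompactSupport.intro (isCompact_Icc (a := (-1 : ℝ)) (b := 1)) fun s hs => ?_
    rw [tri_zero, Complex.ofReal_zero]
    by_contra h
    rw [not_le, abs_lt] at h
    exact hs ⟨h.1.le, h.2.le⟩
  have h := hcont.fourierInv_fourier_eq hint (by
    rw [hF]
    exact fk_int.ofReal)
  have h2 := congrFun h u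
  rw [hF, Real.fourierInv_eq'] at h2
  rw [← h2]
  refine integral_congr_ae (Filter.Eventually.of_forall fun x => ?_)
  simp only [smul_eq_mul]
  congr 1
  unfold ee
  congr 3
  simp [mul_comm]

/-! ### the kernel on the box -/

/-- the scaled kernel -/
noncomputable def fS (S x : ℝ) : ℝ := fk (x / (2 * S))

lemma fS_cont (S : ℝ) : Continuous (fS S) := by
  unfold fS
  exact fk_cont.comp (by fun_prop)

lemma fS_nonneg (S x : ℝ) : 0 ≤ fS S x := fk_nonneg _

lemma fS_int {S : ℝ} (hS : 0 < S) : Integrable (fS S) := fk_int.comp_div (by positivity)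

lemma fS_tr {S : ℝ} (hS : 0 < S) (u : ℝ) :
    ∫ x : ℝ, ee (x * u) * (fS S x : ℂ) = ((2 * S * tri (2 * S * u) : ℝ) : ℂ) := by
  have h := MeasureTheory.Measure.integral_comp_div
    (fun x : ℝ => ee (x * (2 * S * u)) * (fk x : ℂ)) (2 * S)
  rw [inv_tri, abs_of_pos (by positivity)] at h
  rw [Complex.ofReal_mul, ← Complex.real_smul, ← h]
  refine integral_congr_ae (Filter.Eventually.of_forall fun x => ?_)
  simp only [fS]
  congr 2
  field_simp

lemma ee_sum {k : ℕ} (a : Fin k → ℝ) : ee (∑ j, a j) = ∏ j, ee (a j) := by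
  unfold ee
  rw [← Complex.exp_sum]
  congr 1
  push_cast
  rw [Finset.mul_sum, Finset.sum_mul]

/-- the product kernel -/
noncomputable def WW (k : ℕ) (S : ℝ) (α : Fin k → ℝ) : ℝ := ∏ j, fS S (α j)

lemma WW_cont (k : ℕ) (S : ℝ) : Continuous (WW k S) := by
  unfold WW
  exact continuous_finsetProd _ fun j _ => (fS_cont S).comp (continuous_apply j)

lemma WW_nonneg (k : ℕ) (S : ℝ) (α : Fin k → ℝ) : 0 ≤ WW k S α :=
  Finset.prod_nonneg fun j _ => fS_nonneg S _

lemma WW_int (k : ℕ) {S : ℝ} (hS : 0 < S) : Integrable (WW k S) :=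
  Integrable.fintype_prod (f := fun (_ : Fin k) => fS S) fun _ => fS_int hS

lemma WW_low (k : ℕ) {S T : ℝ} (hS : 0 < S) (hT : T ≤ S) {α : Fin k → ℝ} (hα : α ∈ box k T) :
    1 ≤ (Real.pi ^ 2 / 4) ^ k * WW k S α := by
  have h1 : ∀ j : Fin k, 1 ≤ Real.pi ^ 2 / 4 * fS S (α j) := by
    intro j
    have h2 : |α j / (2 * S)| ≤ 1 / 2 := by
      rw [abs_div, abs_of_pos (show (0 : ℝ) < 2 * S by positivity), div_le_iff₀ (by positivity)]
      have h3 : |α j| ≤ T := abs_le.2 ⟨hα.1 j, hα.2 j⟩
      linarith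
    have h4 := fk_low h2
    unfold fS
    calc (1 : ℝ) = Real.pi ^ 2 / 4 * (4 / Real.pi ^ 2) := by field_simp
      _ ≤ _ := mul_le_mul_of_nonneg_left h4 (by positivity)
  have h5 : (Real.pi ^ 2 / 4) ^ k * WW k S α = ∏ j : Fin k, (Real.pi ^ 2 / 4 * fS S (α j)) := by
    unfold WW
    rw [Finset.prod_mul_distrib, Finset.prod_const, Finset.card_univ, Fintype.card_fin]
  rw [h5]
  calc (1 : ℝ) = ∏ _j : Fin k, (1 : ℝ) := by simp
    _ ≤ _ := Finset.prod_le_prod (fun _ _ => zero_le_one) fun j _ => h1 j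

lemma WW_tr (k : ℕ) {S : ℝ} (hS : 0 < S) (u : Fin k → ℝ) :
    ∫ α : Fin k → ℝ, (WW k S α : ℂ) * ee (∑ j, α j * u j) =
      ((∏ j, (2 * S * tri (2 * S * u j)) : ℝ) : ℂ) := by
  have h1 : ∀ α : Fin k → ℝ, (WW k S α : ℂ) * ee (∑ j, α j * u j) =
      ∏ j, (ee (α j * u j) * (fS S (α j) : ℂ)) := by
    intro α
    unfold WW
    rw [ee_sum, Finset.prod_mul_distrib, mul_comm]
    congr 1
    push_cast
    rfl
  simp only [h1]
  rw [integral_fintype_prod_volume_eq_prod (fun j (x : ℝ) => ee (x * u j) * (fS S x : ℂ))]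
  rw [Complex.ofReal_prod]
  exact Finset.prod_congr rfl fun j _ => fS_tr hS (u j)

theorem t_FJ1 : T_FJ1 := by
  intro k S0 hS0
  set S : ℝ := max S0 (1 / 2) with hSdef
  have hS2 : 1 / 2 ≤ S := le_max_right _ _
  have hS : 0 < S := by linarith
  refine ⟨(Real.pi ^ 2 / 4) ^ k * (2 * S) ^ k, by positivity, fun Y _ μ _ γ hγ => ?_⟩
  set g : (Fin k → ℝ) → ℂ := fun α => ∫ y, ee (∑ j, α j * γ y j) ∂μ with hg
  have hγj : ∀ j, Measurable fun y => γ y j := fun j => (measurable_pi_apply j).comp hγ
  have hm1 : ∀ α : Fin k → ℝ, Measurable fun y => ee (∑ j, α j * γ y j) := fun α =>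
    ee_cont.measurable.comp (Finset.measurable_sum _ fun j _ => (hγj j).const_mul _)
  have hgc : Continuous g := by
    refine continuous_of_dominated (bound := fun _ => (1 : ℝ))
      (fun α => (hm1 α).aestronglyMeasurable)
      (fun α => Filter.Eventually.of_forall fun y => (ee_norm _).le) (integrable_const _)
      (Filter.Eventually.of_forall fun y => ?_)
    exact ee_cont.comp (by fun_prop)
  have hgb : ∀ α, ‖g α‖ ^ 2 ≤ (μ.real univ) ^ 2 := by
    intro α
    refine pow_le_pow_left₀ (norm_nonneg _) ?_ 2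
    refine (norm_integral_le_integral_norm _).trans ?_
    simp only [ee_norm]
    simp
  have hWg : Integrable fun α => WW k S α * ‖g α‖ ^ 2 := by
    refine ((WW_int k hS).mul_const ((μ.real univ) ^ 2)).mono'
      (((WW_cont k S).mul (hgc.norm.pow 2)).aestronglyMeasurable)
      (Filter.Eventually.of_forall fun α => ?_)
    rw [Real.norm_eq_abs, abs_of_nonneg (mul_nonneg (WW_nonneg k S α) (by positivity))]
    exact mul_le_mul_of_nonneg_left (hgb α) (WW_nonneg k S α)
  -- from the box to the kernel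
  have step1 : ∫ α in box k S0, ‖g α‖ ^ 2 ≤
      (Real.pi ^ 2 / 4) ^ k * ∫ α, WW k S α * ‖g α‖ ^ 2 := by
    rw [← integral_const_mul]
    refine le_trans (setIntegral_mono_on ?_ (hWg.const_mul _).integrableOn measurableSet_Icc
      fun α hα => ?_) (setIntegral_le_integral (hWg.const_mul _)
        (Filter.Eventually.of_forall fun α => ?_))
    · exact (hgc.norm.pow 2).continuousOn.integrableOn_compact isCompact_Icc
    · have h1 := WW_low k hS (le_max_left S0 (1 / 2)) hα
      calc ‖g α‖ ^ 2 = 1 * ‖g α‖ ^ 2 := (one_mul _).symm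
        _ ≤ ((Real.pi ^ 2 / 4) ^ k * WW k S α) * ‖g α‖ ^ 2 :=
          mul_le_mul_of_nonneg_right h1 (by positivity)
        _ = _ := by ring
    · exact mul_nonneg (by positivity) (mul_nonneg (WW_nonneg k S α) (by positivity))
  -- the kernel
  have hsq : ∀ α, ((‖g α‖ ^ 2 : ℝ) : ℂ) =
      ∫ p : Y × Y, ee (∑ j, α j * (γ p.1 j - γ p.2 j)) ∂(μ.prod μ) := by
    intro α
    have h1 : ∀ p : Y × Y, ee (∑ j, α j * (γ p.1 j - γ p.2 j)) =
        ee (∑ j, α j * γ p.1 j) * (starRingEnd ℂ) (ee (∑ j, α j * γ p.2 j)) := by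
      intro p
      rw [ee_conj, ← ee_add, ← Finset.sum_neg_distrib, ← Finset.sum_add_distrib]
      congr 1
      refine Finset.sum_congr rfl fun j _ => ?_
      ring
    simp only [h1]
    rw [integral_prod_mul (fun y => ee (∑ j, α j * γ y j))
      (fun y => (starRingEnd ℂ) (ee (∑ j, α j * γ y j))), integral_conj, Complex.mul_conj']
    push_cast
    rfl
  have hmeas2 : Measurable fun q : (Fin k → ℝ) × (Y × Y) =>
      ee (∑ j, q.1 j * (γ q.2.1 j - γ q.2.2 j)) := by
    refine ee_cont.measurable.comp (Finset.measurable_sum _ fun j _ => ?_)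
    exact ((measurable_pi_apply j).comp measurable_fst).mul
      (((hγj j).comp (measurable_fst.comp measurable_snd)).sub
        ((hγj j).comp (measurable_snd.comp measurable_snd)))
  have hint2 : Integrable (Function.uncurry fun (α : Fin k → ℝ) (p : Y × Y) =>
      (WW k S α : ℂ) * ee (∑ j, α j * (γ p.1 j - γ p.2 j))) (volume.prod (μ.prod μ)) := by
    have h1 : Integrable (fun q : (Fin k → ℝ) × (Y × Y) => WW k S q.1 * (1 : ℝ))
        (volume.prod (μ.prod μ)) :=
      (WW_int k hS).mul_prod (g := fun _ : Y × Y => (1 : ℝ)) (integrable_const _)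
    refine h1.mono' ?_ (Filter.Eventually.of_forall fun q => ?_)
    · refine (Measurable.mul ?_ hmeas2).aestronglyMeasurable
      exact (Complex.continuous_ofReal.comp (WW_cont k S)).measurable.comp measurable_fst
    · simp only [Function.uncurry]
      rw [norm_mul, ee_norm, Complex.norm_real, Real.norm_eq_abs,
        abs_of_nonneg (WW_nonneg k S _)]
  have step2 : ∫ α, WW k S α * ‖g α‖ ^ 2 =
      ∫ p : Y × Y, ∏ j, (2 * S * tri (2 * S * (γ p.1 j - γ p.2 j))) ∂(μ.prod μ) := by
    apply Complex.ofReal_injective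
    rw [← integral_complex_ofReal, ← integral_complex_ofReal]
    have h1 : ∀ α, ((WW k S α * ‖g α‖ ^ 2 : ℝ) : ℂ) =
        ∫ p : Y × Y, (WW k S α : ℂ) * ee (∑ j, α j * (γ p.1 j - γ p.2 j)) ∂(μ.prod μ) := by
      intro α
      rw [integral_const_mul, ← hsq, Complex.ofReal_mul]
    simp only [h1]
    rw [integral_integral_swap hint2]
    refine integral_congr_ae (Filter.Eventually.of_forall fun p => ?_)
    exact WW_tr k hS fun j => γ p.1 j - γ p.2 j
  -- the last bound
  set A : Set (Y × Y) := {p | ∀ j, |γ p.1 j - γ p.2 j| < 1} with hA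
  have hAm : MeasurableSet A := by
    have : A = ⋂ j, {p : Y × Y | |γ p.1 j - γ p.2 j| < 1} := by
      ext p
      simp [hA]
    rw [this]
    refine MeasurableSet.iInter fun j => ?_
    exact measurableSet_lt ((((hγj j).comp measurable_fst).sub
      ((hγj j).comp measurable_snd)).abs) measurable_const
  have step3 : ∫ p : Y × Y, ∏ j, (2 * S * tri (2 * S * (γ p.1 j - γ p.2 j))) ∂(μ.prod μ) ≤
      (2 * S) ^ k * (μ.prod μ).real A := by
    have h0 : ∀ p : Y × Y, ∏ j, (2 * S * tri (2 * S * (γ p.1 j - γ p.2 j))) ≤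
        A.indicator (fun _ => (2 * S) ^ k) p := by
      intro p
      by_cases hp : p ∈ A
      · rw [indicator_of_mem hp]
        calc ∏ j, (2 * S * tri (2 * S * (γ p.1 j - γ p.2 j))) ≤ ∏ _j : Fin k, (2 * S) := by
              refine Finset.prod_le_prod (fun j _ => mul_nonneg (by positivity) (tri_nonneg _))
                fun j _ => ?_
              have := tri_le (2 * S * (γ p.1 j - γ p.2 j))
              have h2S : 0 ≤ 2 * S := by positivity
              nlinarith
          _ = _ := by rw [Finset.prod_const, Finset.card_univ, Fintype.card_fin]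
      · rw [indicator_of_notMem hp]
        have h1 : ∃ j, 1 ≤ |γ p.1 j - γ p.2 j| := by
          by_contra hcon
          push Not at hcon
          exact hp hcon
        obtain ⟨j, hj⟩ := h1
        rw [Finset.prod_eq_zero (Finset.mem_univ j)]
        rw [tri_zero, mul_zero]
        rw [abs_mul, abs_of_pos (show (0 : ℝ) < 2 * S by positivity)]
        nlinarith
    calc ∫ p : Y × Y, ∏ j, (2 * S * tri (2 * S * (γ p.1 j - γ p.2 j))) ∂(μ.prod μ)
        ≤ ∫ p : Y × Y, A.indicator (fun _ => (2 * S) ^ k) p ∂(μ.prod μ) := by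
          refine integral_mono_of_nonneg (Filter.Eventually.of_forall fun p => ?_)
            ((integrable_const _).indicator hAm) (Filter.Eventually.of_forall h0)
          exact Finset.prod_nonneg fun j _ => mul_nonneg (by positivity) (tri_nonneg _)
      _ = _ := by
          rw [integral_indicator hAm, setIntegral_const, smul_eq_mul, mul_comm]
  calc ∫ α in box k S0, ‖g α‖ ^ 2 ≤ (Real.pi ^ 2 / 4) ^ k * ∫ α, WW k S α * ‖g α‖ ^ 2 := step1
    _ ≤ (Real.pi ^ 2 / 4) ^ k * ((2 * S) ^ k * (μ.prod μ).real A) := by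
        rw [step2]
        exact mul_le_mul_of_nonneg_left step3 (by positivity)
    _ = _ := by ring

end Pool.Agent.U433.VE
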